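import Pool.Agent.Helper80.LN6.Lab2
import Pool.Agent.Helper11.LN6.Rho

/-!
LN6, leaf F (labels of nice classes), part 3: existence (f5), behaviour under `L` (f7), the label function.
-/

open scoped Classical
open Finset

namespace LN6

namespace WSys

namespace H80

variable {k : ℕ} {Γ F : Type} [Group Γ] [MulAction Γ F] {W : WSys k Γ F} {b : ℝ}

theorem rhoF (W : WSys k Γ F) (hk : 5 ≤ k) : RhoF W where
  memL := W.rho_mem_L
  conj := fun j hj => W.a_eq_s j hj
  pow := fun _ hg => (W.L_commute_rho_pow (by omega) hg).symm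
  powT := by
    rw [W.rho_pow (by omega)]
    exact (W.T_commute_T (k - 1) k (by omega) le_rfl).symm.mul_left
      ((W.T_commute_T 2 (k - 1) (by omega) (by omega)).inv_left)
  gen := W.L_le_closure
  conjT4 := W.rho_inv_T4 (by omega)
  conjT4' := by
    rw [W.rho_T4 hk]
    group
  lab := fun i h2 hi => W.lab_rho_lt i h2 hi
  lab' := W.lab_rho_last (by omega)

variable [Fintype F]

/-! ### f5 -/

theorem exists_zz (A : W.Ax b) (hb : 0 < b) (R : RhoF W) (hT : W.STrB) (hV : W.SV b) (hQ3 : W.SQ b 3)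
    (hQ : W.SQ b (k - 1)) (hAV : W.SAV b) {x : F} (hx : W.Nice x) :
    ∃ j : ℕ, 1 ≤ j ∧ j ≤ k - 2 ∧ zz W b x j := by
  have hk := A.k5
  by_contra hno
  push Not at hno
  obtain ⟨y, hy, r⟩ := exists_B A x
  set O := orb W.L (x, y) with hO
  have hmem : (x, y) ∈ O := self_mem_orb _ _
  have hprop : ∀ p ∈ O, W.Nice p.1 ∧ p.2 ∈ W.B (W.s 0) ∧ W.R p.1 p.2 := by
    intro p hp
    obtain ⟨g, hg, rfl⟩ := mem_orb.1 hp
    exact ⟨nice_smul (by omega) hx hg, (B_smul_comm (W.L_commute_s0 (by omega) hg) y).2 hy, W.R_smul g r⟩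
  -- each pair has at most one point
  have hone : ∀ p ∈ O, ((Finset.Icc 1 (k - 2)).filter fun j : ℕ => zz W b p.1 j).card ≤ 1 := by
    intro p hp
    rw [Finset.card_le_one]
    intro i hi j hj
    simp only [Finset.mem_filter, Finset.mem_Icc] at hi hj
    have C := cyc A hb R hT hV hQ3 hQ hAV (hprop p hp).1
    rcases Nat.lt_trichotomy i j with h | h | h
    · exact (C.uniq hi.2 hj.2 (by omega) (by omega)).elim
    · exact h
    · exact (C.uniq hj.2 hi.2 (by omega) (by omega)).elim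
  have hzero : ((Finset.Icc 1 (k - 2)).filter fun j : ℕ => zz W b x j).card = 0 := by
    rw [Finset.card_eq_zero, Finset.filter_eq_empty_iff]
    intro j hj
    rw [Finset.mem_Icc] at hj
    exact hno j hj.1 hj.2
  -- double counting
  have hsum1 : ∑ p ∈ O, ((Finset.Icc 1 (k - 2)).filter fun j : ℕ => zz W b p.1 j).card < O.card := by
    have : O.card = ∑ p ∈ O, 1 := by simp
    rw [this]
    exact Finset.sum_lt_sum hone ⟨(x, y), hmem, by rw [hzero]; exact Nat.zero_lt_one⟩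
  have hcount : ∀ j : ℕ, (O.filter fun p => zz W b p.1 j).card = (O.filter fun p => p.1 ∉ W.Q b (k - 1)).card := by
    intro j
    apply Finset.card_bij (fun p _ => W.rho ^ (-(j : ℤ)) • p)
    · intro p hp
      rw [Finset.mem_filter] at hp ⊢
      exact ⟨smul_mem_orb (rho_mem R _) hp.1, hp.2⟩
    · intro p _ q _ h
      exact MulAction.injective _ h
    · intro q hq
      rw [Finset.mem_filter] at hq
      refine ⟨(W.rho ^ (-(j : ℤ)))⁻¹ • q, ?_, by rw [smul_inv_smul]⟩
      rw [Finset.mem_filter]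
      refine ⟨smul_mem_orb (inv_mem (rho_mem R _)) hq.1, ?_⟩
      unfold zz
      have : (W.rho ^ (-(j : ℤ))) • ((W.rho ^ (-(j : ℤ)))⁻¹ • q).1 = q.1 := by
        rw [Prod.smul_fst, smul_inv_smul]
      rw [this]
      exact hq.2
  have hsum2 : ∑ p ∈ O, ((Finset.Icc 1 (k - 2)).filter fun j : ℕ => zz W b p.1 j).card
      = (k - 2) * (O.filter fun p => p.1 ∉ W.Q b (k - 1)).card := by
    simp only [Finset.card_filter]
    rw [Finset.sum_comm]
    have : ∀ j ∈ Finset.Icc 1 (k - 2), (∑ p ∈ O, if zz W b p.1 ((j : ℕ) : ℤ) then 1 else 0)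
        = (O.filter fun p => p.1 ∉ W.Q b (k - 1)).card := by
      intro j _
      rw [← Finset.card_filter]
      exact hcount j
    rw [Finset.sum_congr rfl this, Finset.sum_const, Nat.card_Icc, smul_eq_mul, Finset.card_filter]
    congr 1
  rw [hsum2] at hsum1
  -- averages
  have hav := hAV O (fun g hg p hp => smul_mem_orb hg hp)
    (fun p hp => ⟨(hprop p hp).1.1, (hprop p hp).2.1, (hprop p hp).2.2⟩) (k - 1) (by omega) (by omega)
  have hsplit := Finset.card_filter_add_card_filter_not (s := O) (p := fun p => p.1 ∉ W.Q b (k - 1))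
  have hlow : b * ((O.filter fun p => ¬ p.1 ∉ W.Q b (k - 1)).card : ℝ)
      ≤ ∑ p ∈ O, W.v (W.T (k - 1)) p.1 p.2 := by
    have h1 : ∑ p ∈ O.filter (fun p => ¬ p.1 ∉ W.Q b (k - 1)), b
        ≤ ∑ p ∈ O.filter (fun p => ¬ p.1 ∉ W.Q b (k - 1)), W.v (W.T (k - 1)) p.1 p.2 := by
      apply Finset.sum_le_sum
      intro p hp
      rw [Finset.mem_filter, not_not] at hp
      obtain ⟨hp, hpQ⟩ := hp
      obtain ⟨h1, h2, h3⟩ := hprop p hp
      exact hQ.2.2.1 _ _ hpQ (Or.inl h2) h3 (ne_of_B h1.1 h2)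
    have h2 : ∑ p ∈ O.filter (fun p => ¬ p.1 ∉ W.Q b (k - 1)), W.v (W.T (k - 1)) p.1 p.2
        ≤ ∑ p ∈ O, W.v (W.T (k - 1)) p.1 p.2 := by
      apply Finset.sum_le_sum_of_subset_of_nonneg (Finset.filter_subset _ _)
      intro p hp _
      obtain ⟨h1, h2, h3⟩ := hprop p hp
      exact V_nonneg A (by omega) (by omega) h3 (ne_of_B h1.1 h2)
    rw [Finset.sum_const, nsmul_eq_mul, mul_comm] at h1
    exact h1.trans h2
  set P := (O.filter fun p => p.1 ∉ W.Q b (k - 1)).card with hP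
  set P' := (O.filter fun p => ¬ p.1 ∉ W.Q b (k - 1)).card with hP'
  have hk' : (5 : ℝ) ≤ k := by exact_mod_cast hk
  have e1 : ((k - 1 : ℕ) : ℝ) = (k : ℝ) - 1 := by
    rw [Nat.cast_sub (by omega)]; simp
  have e2 : ((k - 2 : ℕ) : ℝ) = (k : ℝ) - 2 := by
    rw [Nat.cast_sub (by omega)]; simp
  rw [e1] at hav
  have h3 : ((P : ℝ) + P') = O.card := by exact_mod_cast hsplit
  have h4 : ((k : ℝ) - 2) * P < O.card := by
    rw [← e2]; exact_mod_cast hsum1
  have h5 : ((k : ℝ) - 2) * (b * P') ≤ ((k : ℝ) - 1 - 2) * b * O.card := by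
    rw [← hav]
    exact mul_le_mul_of_nonneg_left hlow (by linarith)
  have h6 : ((k : ℝ) - 2) * P' ≤ ((k : ℝ) - 3) * O.card := by
    have : b * (((k : ℝ) - 2) * P') ≤ b * (((k : ℝ) - 3) * O.card) := by nlinarith
    exact le_of_mul_le_mul_left this hb
  nlinarith

/-! ### the label -/

/-- the label of `x`: the unique `i`, `2 ≤ i < k`, with `rho ^ (1-i) x` outside of the ball `Q (k-1)` -/
noncomputable def ll (W : WSys k Γ F) (b : ℝ) (x : F) : ℕ :=
  if h : ∃ j : ℕ, 1 ≤ j ∧ j ≤ k - 2 ∧ zz W b x j then h.choose + 1 else 0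

theorem ll_spec (A : W.Ax b) (hb : 0 < b) (R : RhoF W) (hT : W.STrB) (hV : W.SV b) (hQ3 : W.SQ b 3)
    (hQ : W.SQ b (k - 1)) (hAV : W.SAV b) {x : F} (hx : W.Nice x) :
    2 ≤ ll W b x ∧ ll W b x < k ∧ zz W b x ((ll W b x : ℤ) - 1) := by
  have hk := A.k5
  have h := exists_zz A hb R hT hV hQ3 hQ hAV hx
  have hl : ll W b x = h.choose + 1 := dif_pos h
  obtain ⟨h1, h2, h3⟩ := h.choose_spec
  rw [hl]
  refine ⟨by omega, by omega, ?_⟩
  have : ((h.choose + 1 : ℕ) : ℤ) - 1 = (h.choose : ℤ) := by push_cast; ring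
  rw [this]
  exact h3

theorem ll_unique (A : W.Ax b) (hb : 0 < b) (R : RhoF W) (hT : W.STrB) (hV : W.SV b) (hQ3 : W.SQ b 3)
    (hQ : W.SQ b (k - 1)) (hAV : W.SAV b) {x : F} (hx : W.Nice x) {i : ℕ} (h2 : 2 ≤ i) (hi : i < k)
    (hz : zz W b x ((i : ℤ) - 1)) : ll W b x = i := by
  have hk := A.k5
  obtain ⟨h3, h4, h5⟩ := ll_spec A hb R hT hV hQ3 hQ hAV hx
  have C := cyc A hb R hT hV hQ3 hQ hAV hx
  rcases Nat.lt_trichotomy (ll W b x) i with h | h | h
  · exact (C.uniq h5 hz (by omega) (by omega)).elim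
  · exact h
  · exact (C.uniq hz h5 (by omega) (by omega)).elim

/-- the label of `x` is `2` or `3` if and only if `x` is in the largest class of `s 2` -/
theorem ll_B2 (A : W.Ax b) (hb : 0 < b) (R : RhoF W) (hT : W.STrB) (hV : W.SV b) (hQ3 : W.SQ b 3)
    (hQ : W.SQ b (k - 1)) (hAV : W.SAV b) {x : F} (hx : W.Nice x) :
    sd W x 0 ↔ (ll W b x = 2 ∨ ll W b x = 3) := by
  have hk := A.k5
  obtain ⟨h3, h4, h5⟩ := ll_spec A hb R hT hV hQ3 hQ hAV hx
  have C := cyc A hb R hT hV hQ3 hQ hAV hx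
  constructor
  · intro h
    by_contra hc
    push Not at hc
    have := C.f1 _ (0 + ((k : ℤ) - 2)) h5 (by omega) (by omega)
    exact this ((sd_per A R x 0).2 h)
  · rintro (h | h)
    · have := C.f6a h5
      rw [h, not_not] at this
      simpa using this
    · have := C.f6b h5
      rw [h, not_not] at this
      simpa using this

theorem braid_act (A : W.Ax b) {c : Γ} (c0 : Commute c (W.s 0)) (hb : W.s 2 * c * W.s 2 = c * W.s 2 * c)
    {x : F} (h1 : W.E (W.s 0) (c • x) (W.s 0 • x)) (h2 : W.E (W.s 0) (c • W.s 2 • x) (W.s 0 • W.s 2 • x)) :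
    W.E (W.s 0) ((W.s 2 * c) • x) (W.s 0 ^ 2 • x) := by
  have hk := A.k5
  have c2 : Commute (W.s 2) (W.s 0) := (W.commute_s 0 2 (by omega) (by omega)).symm
  have cc : Commute (W.s 0) (W.s 0) := Commute.refl _
  -- s 2 • x ~ s 0 • x
  have key : W.E (W.s 0) (W.s 2 • x) (W.s 0 • x) := by
    have a1 : W.E (W.s 0) ((W.s 2 * c * W.s 2) • x) ((W.s 0 * W.s 2 * W.s 2) • x) := by
      have := (E_smul_comm c2 _ _).2 h2
      rw [← mul_smul, ← mul_smul, ← mul_smul, ← mul_smul] at this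
      rw [show W.s 0 * W.s 2 * W.s 2 = W.s 2 * W.s 0 * W.s 2 by rw [c2.eq]]
      exact this
    have a2 : W.E (W.s 0) ((c * W.s 2 * c) • x) ((W.s 0 * W.s 0 * W.s 2) • x) := by
      have b1 := (E_smul_comm (c0.mul_left c2) _ _).2 h1
      have b2 := (E_smul_comm cc _ _).2 h2
      have b3 : (c * W.s 2) • W.s 0 • x = W.s 0 • c • W.s 2 • x := by
        rw [← mul_smul, (c0.mul_left c2).eq, mul_smul, mul_smul]
      rw [b3] at b1
      have b4 := E_trans0 A b1 b2
      rw [← mul_smul] at b4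
      rw [mul_assoc (W.s 0) (W.s 0), mul_smul (W.s 0), mul_smul (W.s 0)]
      exact b4
    rw [hb] at a1
    have a3 := E_trans0 A (E_symm a1) a2
    -- cancel
    have a4 : W.E (W.s 0) (((W.s 0) * W.s 2) • W.s 2 • x) (((W.s 0) * W.s 2) • W.s 0 • x) := by
      rw [← mul_smul, ← mul_smul]
      rw [show W.s 0 * W.s 2 * W.s 0 = W.s 0 * W.s 0 * W.s 2 by rw [mul_assoc, c2.eq, ← mul_assoc]]
      exact a3
    exact (E_smul_comm (cc.mul_left c2) _ _).1 a4
  have a5 := (E_smul_comm c2 _ _).2 h1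
  have a6 := (E_smul_comm cc _ _).2 key
  rw [← mul_smul (W.s 2) (W.s 0) x, c2.eq, mul_smul] at a5
  rw [mul_smul, pow_two, mul_smul]
  exact E_trans0 A a5 a6

/-- f7 for `s 2` -/
theorem ll_s2 (A : W.Ax b) (hb : 0 < b) (R : RhoF W) (hT : W.STrB) (hV : W.SV b) (hQ3 : W.SQ b 3)
    (hQ : W.SQ b (k - 1)) (hAV : W.SAV b) {x : F} (hx : W.Nice x) :
    ll W b (W.s 2 • x) = Equiv.swap 2 3 (ll W b x) := by
  have hk := A.k5
  have s2L : W.s 2 ∈ W.L := W.s_mem_L le_rfl (by omega)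
  have hx2 : W.Nice (W.s 2 • x) := nice_smul (by omega) hx s2L
  obtain ⟨l1, l2, l3⟩ := ll_spec A hb R hT hV hQ3 hQ hAV hx
  obtain ⟨m1, m2, m3⟩ := ll_spec A hb R hT hV hQ3 hQ hAV hx2
  have B1 := ll_B2 A hb R hT hV hQ3 hQ hAV hx
  have B2 := ll_B2 A hb R hT hV hQ3 hQ hAV hx2
  have hs0 : sd W (W.s 2 • x) 0 ↔ sd W x 0 := by
    unfold sd
    simp only [neg_zero, zpow_zero, one_smul]
    exact B_smul_comm (Commute.refl _) x
  by_cases hs : sd W x 0
  · have hl := B1.1 hs
    have hm := B2.1 (hs0.2 hs)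
    have C := cyc A hb R hT hV hQ3 hQ hAV hx
    have C2 := cyc A hb R hT hV hQ3 hQ hAV hx2
    have hxB : x ∈ W.B (W.s 2) := by
      have : W.rho ^ (-(0 : ℤ)) • x ∈ W.B (W.s 2) := hs
      simpa using this
    -- the two labels are different
    have hne : ll W b (W.s 2 • x) ≠ ll W b x := by
      intro heq
      -- a neighbouring side which is isolated from both
      have main : ∀ j : ℤ, ¬ sd W x j → ¬ sd W (W.s 2 • x) j →
          W.s 2 * (W.rho ^ j * W.s 2 * (W.rho ^ j)⁻¹) * W.s 2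
            = (W.rho ^ j * W.s 2 * (W.rho ^ j)⁻¹) * W.s 2 * (W.rho ^ j * W.s 2 * (W.rho ^ j)⁻¹) → False := by
        intro j h1 h2 hbr
        set c := W.rho ^ j * W.s 2 * (W.rho ^ j)⁻¹ with hc
        have c0 : Commute c (W.s 0) := by
          have c2 : Commute (W.s 2) (W.s 0) := (W.commute_s 0 2 (by omega) (by omega)).symm
          exact ((rho_s0 A R j).mul_left c2).mul_left (rho_s0 A R j).inv_left
        have e1 := act_side A R hx h1
        have e2 := act_side A R hx2 h2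
        rw [← hc] at e1 e2
        have e3 := braid_act A c0 hbr e1 e2
        have hcB : ∀ z : F, z ∈ W.B c ↔ sd W z j := by
          intro z
          have h := B_smul_iff (W := W) (W.rho ^ j) (W.s 2) ((W.rho ^ j)⁻¹ • z)
          rw [smul_inv_smul] at h
          rw [hc, h]
          unfold sd
          rw [zpow_neg]
        have e4 : (W.s 2 * c) • x ∈ W.B c := by
          have := (B_smul_iff (W := W) (W.s 2 * c) (W.s 2) x).2 hxB
          have hcc : (W.s 2 * c) * W.s 2 * (W.s 2 * c)⁻¹ = c := by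
            rw [mul_inv_eq_iff_eq_mul, hbr, mul_assoc]
          rwa [hcc] at this
        rw [hcB] at e4
        have n1 : W.Nice ((W.s 2 * c) • x) := by
          refine nice_smul (by omega) hx (mul_mem s2L ?_)
          exact mul_mem (mul_mem (rho_mem R j) s2L) (inv_mem (rho_mem R j))
        rw [sd_congr A R n1 e3 j, pow_two, mul_smul, sd_s0 A R, sd_s0 A R] at e4
        exact h1 e4
      rcases hl with hl | hl
      · -- label 2: side 1, c = s 3
        refine main 1 ?_ ?_ ?_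
        · refine C.f1 _ 1 l3 ?_ ?_ <;> omega
        · refine C2.f1 _ 1 m3 ?_ ?_ <;> omega
        · rw [zpow_one]
          have := R.conj 1 (by omega)
          rw [pow_one] at this
          rw [this]
          exact W.braid 2 (by omega)
      · -- label 3: side -1
        refine main (-1) ?_ ?_ ?_
        · have := C.f1 _ (-1 + ((k : ℤ) - 2)) l3 (by omega) (by omega)
          rwa [sd_per A R] at this
        · have := C2.f1 _ (-1 + ((k : ℤ) - 2)) m3 (by omega) (by omega)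
          rwa [sd_per A R] at this
        · have h3 := R.conj 1 (by omega)
          rw [pow_one] at h3
          have hbr := W.braid 2 (by omega)
          rw [zpow_neg_one, inv_inv]
          have h2 : W.s 2 = W.rho⁻¹ * W.s 3 * W.rho := by
            rw [← h3]; group
          have hbr' : W.rho⁻¹ * (W.s 2 * W.s 3 * W.s 2) * W.rho = W.rho⁻¹ * (W.s 3 * W.s 2 * W.s 3) * W.rho := by
            rw [hbr]
          have t1 : W.rho⁻¹ * (W.s 2 * W.s 3 * W.s 2) * W.rho
              = (W.rho⁻¹ * W.s 2 * W.rho) * (W.rho⁻¹ * W.s 3 * W.rho) * (W.rho⁻¹ * W.s 2 * W.rho) := by group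
          have t2 : W.rho⁻¹ * (W.s 3 * W.s 2 * W.s 3) * W.rho
              = (W.rho⁻¹ * W.s 3 * W.rho) * (W.rho⁻¹ * W.s 2 * W.rho) * (W.rho⁻¹ * W.s 3 * W.rho) := by group
          rw [t1, t2, ← h2] at hbr'
          exact hbr'.symm
    rcases hl with hl | hl <;> rcases hm with hm | hm <;> rw [hm, hl] <;> simp <;> omega
  · have hl : ¬ (ll W b x = 2 ∨ ll W b x = 3) := fun h => hs (B1.2 h)
    push Not at hl
    rw [Equiv.swap_apply_of_ne_of_ne hl.1 hl.2]
    have e := act2 A hx (by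
      intro h
      apply hs
      unfold sd
      simpa using h)
    refine ll_unique A hb R hT hV hQ3 hQ hAV hx2 l1 l2 ?_
    rw [zz_congr A R e, zz_s0 A R]
    exact l3

theorem ll_congr (A : W.Ax b) (hb : 0 < b) (R : RhoF W) (hT : W.STrB) (hV : W.SV b) (hQ3 : W.SQ b 3)
    (hQ : W.SQ b (k - 1)) (hAV : W.SAV b) {x y : F} (hx : W.Nice x) (e : W.E (W.s 0) x y) :
    ll W b y = ll W b x := by
  obtain ⟨l1, l2, l3⟩ := ll_spec A hb R hT hV hQ3 hQ hAV hx
  refine ll_unique A hb R hT hV hQ3 hQ hAV (nice_congr A e hx) l1 l2 ?_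
  rw [← zz_congr A R e]
  exact l3

theorem ll_L (A : W.Ax b) (hb : 0 < b) (R : RhoF W) (hT : W.STrB) (hV : W.SV b) (hQ3 : W.SQ b 3)
    (hQ : W.SQ b (k - 1)) (hAV : W.SAV b) {g : Γ} (hg : g ∈ W.L) :
    ∀ x : F, W.Nice x → ll W b (g • x) = W.lab g (ll W b x) := by
  have hk := A.k5
  have key : g ∈ W.L ∧ ∀ x : F, W.Nice x → ll W b (g • x) = W.lab g (ll W b x) := by
    refine W.L_induction_rho (P := fun g => g ∈ W.L ∧ ∀ x : F, W.Nice x → ll W b (g • x) = W.lab g (ll W b x))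
      ⟨W.s0_mem_L, ?_⟩ ⟨R.memL, ?_⟩ ⟨W.s_mem_L le_rfl (by omega), ?_⟩ ⟨one_mem _, ?_⟩ ?_ ?_ hg
    · intro x hx
      obtain ⟨l1, l2, l3⟩ := ll_spec A hb R hT hV hQ3 hQ hAV hx
      rw [W.lab_s 0 (by omega), Equiv.swap_apply_of_ne_of_ne (by omega) (by omega)]
      refine ll_unique A hb R hT hV hQ3 hQ hAV (nice_smul (by omega) hx W.s0_mem_L) l1 l2 ?_
      rw [zz_s0 A R]
      exact l3
    · intro x hx
      obtain ⟨l1, l2, l3⟩ := ll_spec A hb R hT hV hQ3 hQ hAV hx
      have hn := nice_smul (W := W) (by omega) hx R.memL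
      by_cases h : ll W b x + 1 < k
      · rw [R.lab _ l1 h]
        refine ll_unique A hb R hT hV hQ3 hQ hAV hn (by omega) h ?_
        rw [zz_rho]
        have : ((ll W b x + 1 : ℕ) : ℤ) - 1 - 1 = (ll W b x : ℤ) - 1 := by push_cast; ring
        rw [this]
        exact l3
      · have hl : ll W b x = k - 1 := by omega
        rw [hl, R.lab']
        refine ll_unique A hb R hT hV hQ3 hQ hAV hn le_rfl (by omega) ?_
        rw [zz_rho, ← zz_per A R]
        have : ((2 : ℕ) : ℤ) - 1 - 1 + ((k : ℤ) - 2) = (ll W b x : ℤ) - 1 := by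
          rw [hl]; omega
        rw [this]
        exact l3
    · intro x hx
      rw [ll_s2 A hb R hT hV hQ3 hQ hAV hx, W.lab_s 2 (by omega)]
    · intro x _
      simp
    · rintro g h ⟨hg, h1⟩ ⟨hh, h2⟩
      refine ⟨mul_mem hg hh, ?_⟩
      intro x hx
      rw [mul_smul, h1 _ (nice_smul (by omega) hx hh), h2 x hx, map_mul, Equiv.Perm.mul_apply]
    · rintro g ⟨hg, h1⟩
      refine ⟨inv_mem hg, ?_⟩
      intro x hx
      have := h1 (g⁻¹ • x) (nice_smul (by omega) hx (inv_mem hg))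
      rw [smul_inv_smul] at this
      rw [this, ← Equiv.Perm.mul_apply, ← map_mul, inv_mul_cancel, map_one, Equiv.Perm.one_apply]
  exact key.2

end H80

/-- leaf F: the labels of the nice classes -/
theorem lab_of {k : ℕ} {Γ F : Type} [Group Γ] [MulAction Γ F] {W : WSys k Γ F} {b : ℝ} [Fintype F] (A : W.Ax b) (hb : 0 < b) (hT : W.STrB) (hV : W.SV b) (hQ3 : W.SQ b 3)
    (hQ : W.SQ b (k - 1)) (hAV : W.SAV b) : ∃ l : F → ℕ, W.Lab b l := by
  have hk := A.k5
  have R : H80.RhoF W := H80.rhoF W hk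
  refine ⟨H80.ll W b, ?_⟩
  intro x hx
  obtain ⟨l1, l2, l3⟩ := H80.ll_spec A hb R hT hV hQ3 hQ hAV hx
  refine ⟨⟨l1, l2⟩, fun g hg => H80.ll_L A hb R hT hV hQ3 hQ hAV hg x hx, ?_, ?_,
    fun y e => H80.ll_congr A hb R hT hV hQ3 hQ hAV hx e⟩
  · have h0 : x ∉ W.Q b (k - 1) ↔ H80.zz W b x 0 := by
      unfold H80.zz
      simp
    rw [h0, ← H80.zz_per A R]
    constructor
    · intro h
      refine H80.ll_unique A hb R hT hV hQ3 hQ hAV hx (by omega) (by omega) ?_
      have : (((k - 1 : ℕ) : ℤ)) - 1 = 0 + ((k : ℤ) - 2) := by omega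
      rw [this]
      exact h
    · intro h
      rw [h] at l3
      have : (((k - 1 : ℕ) : ℤ)) - 1 = 0 + ((k : ℤ) - 2) := by omega
      rw [this] at l3
      exact l3
  · rw [← H80.ll_B2 A hb R hT hV hQ3 hQ hAV hx]
    unfold H80.sd
    simp

end WSys

end LN6
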