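import Pool.Agent.Helper80.LN6.Tool
import Pool.Agent.Helper32.LN6.Chi

/-!
LN6, leaf F (labels of nice classes), part 1: invariances, positivity of `V m`, and the cyclic combinatorics.
-/

open scoped Classical
open Finset

namespace LN6

namespace WSys

namespace H80

/-! ### cyclic combinatorics -/

/-- the cyclic bookkeeping of sides `I` and points `Z` (memo f1, f3, f4 imply f5 (uniqueness) and f6) -/
structure Cyc (m : ℤ) (I Z : ℤ → Prop) : Prop where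
  hm : 3 ≤ m
  pI : ∀ j, I (j + m) ↔ I j
  pZ : ∀ j, Z (j + m) ↔ Z j
  f1 : ∀ t j, Z t → t ≤ j → j ≤ t + m - 3 → I j
  f3 : ∀ t, ¬ ∀ j, t ≤ j → j < t + m → I j
  f4 : ∀ t, (∀ j, t ≤ j → j ≤ t + m - 2 → I j) → ¬ Z t ∧ ¬ Z (t + 1)

theorem Cyc.adj {m : ℤ} {I Z : ℤ → Prop} (C : Cyc m I Z) {s : ℤ} (h1 : Z s) (h2 : Z (s + 1)) : False := by
  have hm := C.hm
  refine (C.f4 s ?_).1 h1
  intro j hj hj'
  by_cases h : j ≤ s + m - 3
  · exact C.f1 s j h1 hj h
  · exact C.f1 (s + 1) j h2 (by omega) (by omega)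

theorem Cyc.uniq {m : ℤ} {I Z : ℤ → Prop} (C : Cyc m I Z) {s t : ℤ} (h1 : Z s) (h2 : Z t) (hst : s < t)
    (hts : t < s + m) : False := by
  have hm := C.hm
  by_cases ha : t = s + 1
  · subst ha; exact C.adj h1 h2
  by_cases hb : t = s + m - 1
  · refine C.adj h2 (s := t) ?_
    rw [hb, show s + m - 1 + 1 = s + m by ring]
    exact (C.pZ s).2 h1
  · refine C.f3 s ?_
    intro j hj hj'
    by_cases h : j ≤ s + m - 3
    · exact C.f1 s j h1 hj h
    · exact C.f1 t j h2 (by omega) (by omega)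

theorem Cyc.f6a {m : ℤ} {I Z : ℤ → Prop} (C : Cyc m I Z) {t : ℤ} (h : Z t) : ¬ I (t - 1) := by
  intro hI
  have hm := C.hm
  have h4 := (C.f4 (t - 1) ?_).2
  · rw [show t - 1 + 1 = t by ring] at h4
    exact h4 h
  · intro j hj hj'
    by_cases h' : j = t - 1
    · rw [h']; exact hI
    · exact C.f1 t j h (by omega) (by omega)

theorem Cyc.f6b {m : ℤ} {I Z : ℤ → Prop} (C : Cyc m I Z) {t : ℤ} (h : Z t) : ¬ I (t - 2) := by
  intro hI
  have hm := C.hm
  refine (C.f4 t ?_).1 h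
  intro j hj hj'
  by_cases h' : j = t + m - 2
  · rw [h', show t + m - 2 = (t - 2) + m by ring]
    exact (C.pI _).2 hI
  · exact C.f1 t j h (by omega) (by omega)

theorem Cyc.allI {m : ℤ} {I : ℤ → Prop} (hm : 3 ≤ m) (pI : ∀ j, I (j + m) ↔ I j) {t : ℤ}
    (h : ∀ j, t ≤ j → j < t + m → I j) (j : ℤ) : I j := by
  have key : ∀ (n : ℕ) (i : ℤ), I (i + n * m) ↔ I i := by
    intro n
    induction n with
    | zero => intro i; simp
    | succ n ih =>
      intro i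
      have : i + ((n + 1 : ℕ) : ℤ) * m = (i + n * m) + m := by push_cast; ring
      rw [this, pI, ih]
  have hpos : 0 < m := by omega
  -- write j = t + q * m + r
  have hr0 := Int.emod_nonneg (j - t) hpos.ne'
  have hr1 := Int.emod_lt_of_pos (j - t) hpos
  have hdiv := Int.emod_add_mul_ediv (j - t) m
  set q := (j - t) / m with hq
  set r := (j - t) % m with hr
  have hIr : I (t + r) := h _ (by omega) (by omega)
  have hj : j = (t + r) + q * m := by linarith [mul_comm m q]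
  rcases Int.le_total 0 q with hq0 | hq0
  · obtain ⟨n, hn⟩ := Int.eq_ofNat_of_zero_le hq0
    rw [hj, hn]
    exact (key n _).2 hIr
  · obtain ⟨n, hn⟩ := Int.eq_ofNat_of_zero_le (a := -q) (by omega)
    rw [← key n, hj]
    have : t + r + q * m + n * m = t + r := by
      rw [← hn]; ring
    rw [this]
    exact hIr

variable {k : ℕ} {Γ F : Type} [Group Γ] [MulAction Γ F] {W : WSys k Γ F} {b : ℝ} [Fintype F]

/-! ### windings and invariance -/

theorem v_comm {g h : Γ} (c : Commute g h) {x y : F} (r : W.R x y) (ne : x ≠ y) :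
    W.v h (g • x) (g • y) = W.v h x y := by
  have := W.v_conj h g x y r ne
  have hc : g * h * g⁻¹ = h := by rw [c.eq]; group
  rwa [hc] at this

/-- sum rule on a `Bm m`-orbit -/
theorem card_V (A : W.Ax b) {m : ℕ} (hm : 2 ≤ m) (hmk : m ≤ k) {x y : F} (r : W.R x y) (ne : x ≠ y) :
    ((orb (W.Bm m) (x, y)).card : ℝ) * W.v (W.T m) x y
      = (m : ℝ) * ((m : ℝ) - 1) * ∑ p ∈ orb (W.Bm m) (x, y), W.v (W.s 0) p.1 p.2 := by
  have hG : Chi.Gd W (orb (W.Bm m) (x, y)) := by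
    intro p hp
    obtain ⟨g, _, rfl⟩ := mem_orb.1 hp
    exact ⟨W.R_smul g r, fun h => ne (MulAction.injective g h)⟩
  have hB : W.Bm m ≤ Chi.stb (Γ := Γ) (orb (W.Bm m) (x, y)) := by
    intro g hg p hp
    exact smul_mem_orb hg hp
  have h := Chi.chi_B hG hmk hm hB m (by omega) le_rfl
  have h2 : Chi.chi W (orb (W.Bm m) (x, y)) (W.T m) = ((orb (W.Bm m) (x, y)).card : ℝ) * W.v (W.T m) x y := by
    unfold Chi.chi
    rw [← nsmul_eq_mul]
    apply Finset.sum_eq_card_nsmul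
    intro p hp
    obtain ⟨g, hg, rfl⟩ := mem_orb.1 hp
    exact v_comm (W.Bm_commute_T hmk hg) r ne
  rw [h2] at h
  exact h

theorem V_nonneg (A : W.Ax b) {m : ℕ} (hm : 2 ≤ m) (hmk : m ≤ k) {x y : F} (r : W.R x y) (ne : x ≠ y) :
    0 ≤ W.v (W.T m) x y := by
  have h := card_V A hm hmk r ne
  have hc : 0 < ((orb (W.Bm m) (x, y)).card : ℝ) := by
    exact_mod_cast Finset.card_pos.2 ⟨_, self_mem_orb _ _⟩
  have hs : 0 ≤ ∑ p ∈ orb (W.Bm m) (x, y), W.v (W.s 0) p.1 p.2 := by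
    apply Finset.sum_nonneg
    intro p hp
    obtain ⟨g, _, rfl⟩ := mem_orb.1 hp
    exact A.nonneg _ _ (W.R_smul g r) (fun h => ne (MulAction.injective g h))
  have hm' : (2 : ℝ) ≤ m := by exact_mod_cast hm
  by_contra hneg
  push Not at hneg
  have : ((orb (W.Bm m) (x, y)).card : ℝ) * W.v (W.T m) x y < 0 := mul_neg_of_pos_of_neg hc hneg
  have h2 : 0 ≤ (m : ℝ) * ((m : ℝ) - 1) * ∑ p ∈ orb (W.Bm m) (x, y), W.v (W.s 0) p.1 p.2 :=
    mul_nonneg (mul_nonneg (by linarith) (by linarith)) hs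
  linarith

theorem V_pos_iff (A : W.Ax b) {m : ℕ} (hm : 2 ≤ m) (hmk : m ≤ k) {x y : F} (r : W.R x y) (ne : x ≠ y) :
    0 < W.v (W.T m) x y ↔ ∃ g ∈ W.Bm m, 0 < W.v (W.s 0) (g • x) (g • y) := by
  have h := card_V A hm hmk r ne
  have hc : 0 < ((orb (W.Bm m) (x, y)).card : ℝ) := by
    exact_mod_cast Finset.card_pos.2 ⟨_, self_mem_orb _ _⟩
  have hm' : (2 : ℝ) ≤ m := by exact_mod_cast hm
  have hmm : 0 < (m : ℝ) * ((m : ℝ) - 1) := mul_pos (by linarith) (by linarith)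
  have hn : ∀ p ∈ orb (W.Bm m) (x, y), 0 ≤ W.v (W.s 0) p.1 p.2 := by
    intro p hp
    obtain ⟨g, _, rfl⟩ := mem_orb.1 hp
    exact A.nonneg _ _ (W.R_smul g r) (fun h => ne (MulAction.injective g h))
  constructor
  · intro hp
    have hs : 0 < ∑ p ∈ orb (W.Bm m) (x, y), W.v (W.s 0) p.1 p.2 := by
      have : 0 < (m : ℝ) * ((m : ℝ) - 1) * ∑ p ∈ orb (W.Bm m) (x, y), W.v (W.s 0) p.1 p.2 := by
        rw [← h]; exact mul_pos hc hp
      exact (mul_pos_iff_of_pos_left hmm).1 this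
    obtain ⟨p, hp, hp'⟩ := Finset.exists_lt_of_sum_lt (f := fun _ => (0 : ℝ)) (by simpa using hs)
    obtain ⟨g, hg, rfl⟩ := mem_orb.1 hp
    exact ⟨g, hg, hp'⟩
  · rintro ⟨g, hg, hpos⟩
    have hs : 0 < ∑ p ∈ orb (W.Bm m) (x, y), W.v (W.s 0) p.1 p.2 :=
      Finset.sum_pos' hn ⟨g • (x, y), smul_mem_orb hg (self_mem_orb _ _), hpos⟩
    have h2 : 0 < ((orb (W.Bm m) (x, y)).card : ℝ) * W.v (W.T m) x y := by
      rw [h]; exact mul_pos hmm hs
    exact (mul_pos_iff_of_pos_left hc).1 h2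

theorem V_pos_mono (A : W.Ax b) {m n : ℕ} (hm : 2 ≤ m) (hmn : m ≤ n) (hnk : n ≤ k) {x y : F} (r : W.R x y)
    (ne : x ≠ y) (h : 0 < W.v (W.T m) x y) : 0 < W.v (W.T n) x y := by
  rw [V_pos_iff A hm (by omega) r ne] at h
  rw [V_pos_iff A (by omega) hnk r ne]
  obtain ⟨g, hg, h⟩ := h
  exact ⟨g, W.Bm_mono hmn hg, h⟩

theorem ne_of_B {h : Γ} {x y : F} (hx : x ∉ W.B h) (hy : y ∈ W.B h) : x ≠ y := by
  rintro rfl
  exact hx hy

theorem nE_of_B (A : W.Ax b) {x y : F} (hx : x ∉ W.B (W.s 0)) (hy : y ∈ W.B (W.s 0)) : ¬ W.E (W.s 0) x y :=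
  fun e => hx ((B_congr A e).2 hy)

/-! ### the balls `Q` -/

theorem Q_smul_comm {m : ℕ} {g : Γ} (c0 : Commute g (W.s 0)) (cT : Commute g (W.T m)) (x : F) :
    g • x ∈ W.Q b m ↔ x ∈ W.Q b m := by
  have key : ∀ (g : Γ), Commute g (W.s 0) → Commute g (W.T m) → ∀ x : F, x ∈ W.Q b m → g • x ∈ W.Q b m := by
    intro g c0 cT x hx
    rcases hx with h | ⟨y, hy, r, h⟩
    · exact Or.inl ((B_smul_comm c0 x).2 h)
    · by_cases hxy : x = y
      · subst hxy
        exact Or.inl ((B_smul_comm c0 x).2 hy)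
      · refine Or.inr ⟨g • y, (B_smul_comm c0 y).2 hy, W.R_smul g r, ?_⟩
        rw [v_comm cT r hxy]
        exact h
  constructor
  · intro h
    have := key g⁻¹ c0.inv_left cT.inv_left _ h
    simpa using this
  · exact key g c0 cT x

theorem Q_congr (A : W.Ax b) {m : ℕ} (hm : 3 ≤ m) (hmk : m < k) {x x' : F} (e : W.E (W.s 0) x x') :
    x ∈ W.Q b m ↔ x' ∈ W.Q b m := by
  have key : ∀ x x' : F, W.E (W.s 0) x x' → x ∈ W.Q b m → x' ∈ W.Q b m := by
    intro x x' e hx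
    rcases hx with h | ⟨y, hy, r, h⟩
    · exact Or.inl ((B_congr A e).1 h)
    · by_cases hxB : x ∈ W.B (W.s 0)
      · exact Or.inl ((B_congr A e).1 hxB)
      · refine Or.inr ⟨y, hy, W.R_trans (W.R_symm (E_R e)) r, ?_⟩
        rw [CC1' A hm hmk e r (nE_of_B A hxB hy)]
        exact h
  exact ⟨key _ _ e, key _ _ (E_symm e)⟩

/-! ### nice elements -/

theorem nice_smul {x : F} (hk : 2 < k) (hx : W.Nice x) {g : Γ} (hg : g ∈ W.L) : W.Nice (g • x) := by
  refine ⟨?_, ?_⟩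
  · rw [B_smul_comm (W.L_commute_s0 hk hg)]
    exact hx.1
  · intro h hh
    rw [← mul_smul]
    exact hx.2 _ (mul_mem hh hg)

theorem dich_congr (A : W.Ax b) {x y : F} (e : W.E (W.s 0) x y) (h : W.Dich x) : W.Dich y := by
  unfold Dich at h ⊢
  rwa [← cl_eq A e]

theorem nice_congr (A : W.Ax b) {x y : F} (e : W.E (W.s 0) x y) (hx : W.Nice x) : W.Nice y := by
  have hk := A.k5
  refine ⟨fun h => hx.1 ((B_congr A e).2 h), ?_⟩
  intro g hg
  exact dich_congr A ((E_smul_comm (W.L_commute_s0 (by omega) hg) x y).2 e) (hx.2 g hg)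

theorem dich_of_nice {x : F} (hx : W.Nice x) : W.Dich x := by
  have := hx.2 1 (one_mem _)
  rwa [one_smul] at this

theorem B2_congr {x y : F} (hx : W.Nice x) (e : W.E (W.s 0) x y) : x ∈ W.B (W.s 2) ↔ y ∈ W.B (W.s 2) := by
  rcases dich_of_nice hx with h | ⟨h, _⟩
  · exact ⟨fun _ => h y (mem_cl.2 e), fun _ => h x (mem_cl.2 (E_refl _ _ _))⟩
  · exact ⟨fun h' => absurd h' (h x (mem_cl.2 (E_refl _ _ _))), fun h' => absurd h' (h y (mem_cl.2 e))⟩

/-- `s 2` acts on an isolated class as `s 0` -/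
theorem act2 (A : W.Ax b) {x : F} (hx : W.Nice x) (h2 : x ∉ W.B (W.s 2)) :
    W.E (W.s 0) (W.s 2 • x) (W.s 0 • x) := by
  have hk := A.k5
  rcases dich_of_nice hx with h | ⟨_, h⟩
  · exact absurd (h x (mem_cl.2 (E_refl _ _ _))) h2
  · have hy : W.s 0 • (W.s 0)⁻¹ • W.s 2 • x = W.s 2 • x := by simp
    have hR : W.R x ((W.s 0)⁻¹ • W.s 2 • x) := by
      have := W.R_smul (W.s 0)⁻¹ (W.R_s 2 x (by omega))
      rw [inv_smul_smul] at this
      exact W.R_symm this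
    have hE : W.E (W.s 0) x ((W.s 0)⁻¹ • W.s 2 • x) := by
      rcases A.tr x with h' | h' | h'
      · rw [h']; exact E_refl _ _ _
      · exact Or.inr ⟨hR, h'⟩
      · by_contra hc
        have := h x (mem_cl.2 (E_refl _ _ _)) _ hR (fun hm => hc (mem_cl.1 hm))
        rw [this] at h'
        exact lt_irrefl _ h'
    have := (E_smul_comm (W := W) (Commute.refl (W.s 0)) x ((W.s 0)⁻¹ • W.s 2 • x)).2 hE
    rw [hy] at this
    exact E_symm this

end H80

end WSys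

end LN6
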