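import Pool.Agent.Helper80.LN6.Lab1

/-!
LN6, leaf F (labels of nice classes), part 2: sides and points of the polygon, statements f1, f3, f4, f5, f6.
-/

open scoped Classical
open Finset

namespace LN6

namespace WSys

namespace H80

variable {k : ℕ} {Γ F : Type} [Group Γ] [MulAction Γ F] {W : WSys k Γ F} {b : ℝ}

/-- the group theoretic facts on `rho` (leaf B3) -/
structure RhoF (W : WSys k Γ F) : Prop where
  memL : W.rho ∈ W.L
  conj : ∀ j, j + 3 < k → W.rho ^ j * W.s 2 * (W.rho ^ j)⁻¹ = W.s (j + 2)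
  pow : ∀ g ∈ W.L, Commute (W.rho ^ (k - 2)) g
  powT : Commute (W.rho ^ (k - 2)) (W.T (k - 1))
  gen : W.L ≤ Subgroup.closure {W.s 0, W.rho, W.s 2}
  conjT4 : W.rho⁻¹ * W.T 4 * W.rho = (W.up 3 (k - 4))⁻¹ * W.T 4 * W.up 3 (k - 4)
  conjT4' : W.rho * W.T 4 * W.rho⁻¹ = (W.s 3 * W.s 2)⁻¹ * W.T 4 * (W.s 3 * W.s 2)
  lab : ∀ i, 2 ≤ i → i + 1 < k → W.lab W.rho i = i + 1
  lab' : W.lab W.rho (k - 1) = 2

/-- `x` (nice) is in the largest class of the side `j` -/
def sd (W : WSys k Γ F) [Fintype F] (x : F) (j : ℤ) : Prop := W.rho ^ (-j) • x ∈ W.B (W.s 2)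

/-- the point `j - 1` of the polygon is the label of `x` -/
def zz (W : WSys k Γ F) [Fintype F] (b : ℝ) (x : F) (j : ℤ) : Prop := W.rho ^ (-j) • x ∉ W.Q b (k - 1)

variable [Fintype F]

theorem sd_shift (x : F) (t j : ℤ) : sd W x (t + j) ↔ sd W (W.rho ^ (-t) • x) j := by
  unfold sd
  rw [← mul_smul, ← zpow_add]
  have : -(t + j) = -j + -t := by ring
  rw [this]

theorem zz_shift (x : F) (t j : ℤ) : zz W b x (t + j) ↔ zz W b (W.rho ^ (-t) • x) j := by
  unfold zz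
  rw [← mul_smul, ← zpow_add]
  have : -(t + j) = -j + -t := by ring
  rw [this]

theorem rho_s0 (A : W.Ax b) (R : RhoF W) (j : ℤ) : Commute (W.rho ^ j) (W.s 0) := by
  have hk := A.k5
  exact (W.L_commute_s0 (by omega) R.memL).zpow_left j

theorem rho_mem (R : RhoF W) (j : ℤ) : W.rho ^ j ∈ W.L := zpow_mem R.memL j

theorem mcast (A : W.Ax b) : ((k - 2 : ℕ) : ℤ) = (k : ℤ) - 2 := by
  have hk := A.k5
  omega

theorem rho_m (A : W.Ax b) : W.rho ^ (-((k : ℤ) - 2)) = (W.rho ^ (k - 2))⁻¹ := by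
  rw [← mcast A, zpow_neg, zpow_natCast]

theorem sd_per (A : W.Ax b) (R : RhoF W) (x : F) (j : ℤ) : sd W x (j + ((k : ℤ) - 2)) ↔ sd W x j := by
  have hk := A.k5
  rw [sd_shift]
  unfold sd
  rw [rho_m A]
  exact B_smul_comm (R.pow _ (W.s_mem_L le_rfl (by omega))).inv_left _

theorem zz_per (A : W.Ax b) (R : RhoF W) (x : F) (j : ℤ) : zz W b x (j + ((k : ℤ) - 2)) ↔ zz W b x j := by
  have hk := A.k5
  rw [zz_shift]
  unfold zz
  rw [rho_m A, Q_smul_comm (R.pow _ W.s0_mem_L).inv_left R.powT.inv_left]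

theorem sd_s0 (A : W.Ax b) (R : RhoF W) (x : F) (j : ℤ) : sd W (W.s 0 • x) j ↔ sd W x j := by
  have hk := A.k5
  unfold sd
  rw [← mul_smul, (rho_s0 A R _).eq, mul_smul]
  exact B_smul_comm (W.commute_s 0 2 (by omega) (by omega)) _

theorem zz_s0 (A : W.Ax b) (R : RhoF W) (x : F) (j : ℤ) : zz W b (W.s 0 • x) j ↔ zz W b x j := by
  have hk := A.k5
  unfold zz
  rw [← mul_smul, (rho_s0 A R _).eq, mul_smul, Q_smul_comm (Commute.refl _)
    (W.T_commute_s (k - 1) 0 (by omega) (by omega) (by omega)).symm]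

theorem sd_rho (x : F) (j : ℤ) : sd W (W.rho • x) j ↔ sd W x (j - 1) := by
  unfold sd
  rw [← mul_smul]
  have : W.rho ^ (-j) * W.rho = W.rho ^ (-(j - 1)) := by
    rw [← zpow_add_one]; congr 1; ring
  rw [this]

theorem zz_rho (x : F) (j : ℤ) : zz W b (W.rho • x) j ↔ zz W b x (j - 1) := by
  unfold zz
  rw [← mul_smul]
  have : W.rho ^ (-j) * W.rho = W.rho ^ (-(j - 1)) := by
    rw [← zpow_add_one]; congr 1; ring
  rw [this]

theorem sd_congr (A : W.Ax b) (R : RhoF W) {x y : F} (hx : W.Nice x) (e : W.E (W.s 0) x y) (j : ℤ) :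
    sd W x j ↔ sd W y j := by
  have hk := A.k5
  exact B2_congr (nice_smul (by omega) hx (rho_mem R (-j))) ((E_smul_comm (rho_s0 A R _) _ _).2 e)

theorem zz_congr (A : W.Ax b) (R : RhoF W) {x y : F} (e : W.E (W.s 0) x y) (j : ℤ) :
    zz W b x j ↔ zz W b y j := by
  have hk := A.k5
  unfold zz
  rw [Q_congr A (by omega) (by omega) ((E_smul_comm (rho_s0 A R _) _ _).2 e)]

/-- the generator of the side `j` acts as `s 0` on the classes isolated from it -/
theorem act_side (A : W.Ax b) (R : RhoF W) {x : F} (hx : W.Nice x) {j : ℤ} (hj : ¬ sd W x j) :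
    W.E (W.s 0) ((W.rho ^ j * W.s 2 * (W.rho ^ j)⁻¹) • x) (W.s 0 • x) := by
  have hk := A.k5
  have hn : W.Nice (W.rho ^ (-j) • x) := nice_smul (by omega) hx (rho_mem R (-j))
  have h := act2 A hn hj
  have h' := (E_smul_comm (rho_s0 A R j) _ _).2 h
  rw [← mul_smul, ← mul_smul, ← mul_smul, ← mul_smul] at h'
  have e1 : W.rho ^ j * W.s 2 * W.rho ^ (-j) = W.rho ^ j * W.s 2 * (W.rho ^ j)⁻¹ := by
    rw [zpow_neg]
  have e2 : W.rho ^ j * W.s 0 * W.rho ^ (-j) = W.s 0 := by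
    rw [(rho_s0 A R j).eq, zpow_neg, mul_assoc, mul_inv_cancel, mul_one]
  rw [e1, e2] at h'
  exact h'

theorem act_s (A : W.Ax b) (R : RhoF W) {x : F} (hx : W.Nice x) {j : ℕ} (hjk : j + 3 < k) (hj : ¬ sd W x j) :
    W.E (W.s 0) (W.s (j + 2) • x) (W.s 0 • x) := by
  have := act_side A R hx hj
  rwa [zpow_natCast, R.conj j hjk] at this

theorem sd_iff (R : RhoF W) (x : F) {j : ℕ} (hjk : j + 3 < k) : sd W x j ↔ x ∈ W.B (W.s (j + 2)) := by
  rw [← R.conj j hjk]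
  unfold sd
  have h := B_smul_iff (W := W) (W.rho ^ j) (W.s 2) ((W.rho ^ j)⁻¹ • x)
  rw [smul_inv_smul] at h
  rw [h, zpow_neg, zpow_natCast]

/-! ### f1 -/

theorem f1_zero (A : W.Ax b) (R : RhoF W) (hQ : W.SQ b (k - 1)) {x : F} (hz : zz W b x 0) {j : ℤ} (h0 : 0 ≤ j)
    (hj : j ≤ (k : ℤ) - 2 - 3) : ¬ sd W x j := by
  have hk := A.k5
  obtain ⟨n, rfl⟩ := Int.eq_ofNat_of_zero_le h0
  rw [sd_iff R x (by omega)]
  intro hx
  apply hz
  obtain ⟨g, hg, hs⟩ := W.s_conj_zero (n + 2) (by omega)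
  rw [hs] at hx
  have := hQ.2.1 g (W.Bm_mono (by omega) hg) x hx
  simpa using this

theorem f1 (A : W.Ax b) (R : RhoF W) (hQ : W.SQ b (k - 1)) {x : F} (t j : ℤ) (hz : zz W b x t) (h0 : t ≤ j)
    (hj : j ≤ t + ((k : ℤ) - 2) - 3) : ¬ sd W x j := by
  have h1 : zz W b (W.rho ^ (-t) • x) 0 := by
    rw [← zz_shift, add_zero]; exact hz
  have h2 := f1_zero A R hQ h1 (j := j - t) (by omega) (by omega)
  rw [← sd_shift, add_sub_cancel] at h2
  exact h2

/-! ### f3 -/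

/-- nice elements isolated from all sides -/
def SS (W : WSys k Γ F) (x : F) : Prop := W.Nice x ∧ ∀ j : ℤ, ¬ sd W x j

theorem SS_congr (A : W.Ax b) (R : RhoF W) {x y : F} (e : W.E (W.s 0) x y) (h : SS W x) : SS W y :=
  ⟨nice_congr A e h.1, fun j => by rw [← sd_congr A R h.1 e j]; exact h.2 j⟩

theorem SS_s0 (A : W.Ax b) (R : RhoF W) {x : F} : SS W (W.s 0 • x) ↔ SS W x := by
  have hk := A.k5
  constructor
  · rintro ⟨h1, h2⟩
    refine ⟨?_, fun j => by rw [← sd_s0 A R]; exact h2 j⟩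
    have := nice_smul (by omega) h1 (inv_mem W.s0_mem_L)
    rwa [inv_smul_smul] at this
  · rintro ⟨h1, h2⟩
    exact ⟨nice_smul (by omega) h1 W.s0_mem_L, fun j => by rw [sd_s0 A R]; exact h2 j⟩

theorem SS_rho (A : W.Ax b) (R : RhoF W) {x : F} : SS W (W.rho • x) ↔ SS W x := by
  have hk := A.k5
  constructor
  · rintro ⟨h1, h2⟩
    refine ⟨?_, fun j => ?_⟩
    · have := nice_smul (by omega) h1 (inv_mem R.memL)
      rwa [inv_smul_smul] at this
    · have := h2 (j + 1)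
      rw [sd_rho] at this
      rwa [add_sub_cancel_right] at this
  · rintro ⟨h1, h2⟩
    exact ⟨nice_smul (by omega) h1 R.memL, fun j => by rw [sd_rho]; exact h2 _⟩

theorem SS_s2 (A : W.Ax b) (R : RhoF W) {x : F} (h : SS W x) : SS W (W.s 2 • x) := by
  have e := act2 A h.1 (by simpa [sd] using h.2 0)
  exact SS_congr A R (E_symm e) ((SS_s0 A R).2 h)

theorem SS_s2' (A : W.Ax b) (R : RhoF W) {x : F} (h : SS W x) : SS W ((W.s 2)⁻¹ • x) := by
  have hk := A.k5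
  have h0 : SS W ((W.s 0)⁻¹ • x) := by
    rw [← SS_s0 A R, smul_inv_smul]; exact h
  have e := act2 A h0.1 (by simpa [sd] using h0.2 0)
  rw [smul_inv_smul] at e
  have c : Commute (W.s 2)⁻¹ (W.s 0) := (W.commute_s 0 2 (by omega) (by omega)).symm.inv_left
  have e' := (E_smul_comm c _ _).2 e
  rw [inv_smul_smul] at e'
  exact SS_congr A R e' h0

theorem SS_L (A : W.Ax b) (R : RhoF W) {g : Γ} (hg : g ∈ W.L) : ∀ x : F, SS W x → SS W (g • x) := by
  have key : ∀ g ∈ Subgroup.closure {W.s 0, W.rho, W.s 2}, (∀ x : F, SS W x → SS W (g • x)) ∧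
      ∀ x : F, SS W x → SS W (g⁻¹ • x) := by
    intro g hg
    refine Subgroup.closure_induction (p := fun g _ => (∀ x : F, SS W x → SS W (g • x)) ∧
      ∀ x : F, SS W x → SS W (g⁻¹ • x)) ?_ ?_ ?_ ?_ hg
    · rintro g (rfl | rfl | rfl)
      · refine ⟨fun x h => (SS_s0 A R).2 h, fun x h => ?_⟩
        rw [← SS_s0 A R, smul_inv_smul]; exact h
      · refine ⟨fun x h => (SS_rho A R).2 h, fun x h => ?_⟩
        rw [← SS_rho A R, smul_inv_smul]; exact h
      · exact ⟨fun x h => SS_s2 A R h, fun x h => SS_s2' A R h⟩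
    · simp
    · rintro g h _ _ ⟨h1, h2⟩ ⟨h3, h4⟩
      refine ⟨fun x hx => ?_, fun x hx => ?_⟩
      · rw [mul_smul]; exact h1 _ (h3 _ hx)
      · rw [mul_inv_rev, mul_smul]; exact h4 _ (h2 _ hx)
    · rintro g _ ⟨h1, h2⟩
      refine ⟨h2, ?_⟩
      rw [inv_inv]; exact h1
  exact (key g (R.gen hg)).1

theorem SS_act (A : W.Ax b) (R : RhoF W) {x : F} (h : SS W x) {i : ℕ} (hi : 2 ≤ i) (hik : i + 1 < k) :
    W.E (W.s 0) (W.s i • x) (W.s 0 • x) := by
  obtain ⟨j, rfl⟩ : ∃ j, i = j + 2 := ⟨i - 2, by omega⟩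
  exact act_s A R h.1 (by omega) (h.2 j)

theorem SS_V3 (A : W.Ax b) (R : RhoF W) (hT : W.STrB) {g : Γ} (hg : g ∈ W.L) :
    ∀ x y : F, SS W x → y ∈ W.B (W.s 0) → W.R x y → W.v (W.T 3) (g • x) (g • y) = W.v (W.T 3) x y := by
  have hk := A.k5
  refine W.L_induction (P := fun g => ∀ x y : F, SS W x → y ∈ W.B (W.s 0) → W.R x y →
    W.v (W.T 3) (g • x) (g • y) = W.v (W.T 3) x y) ?_ ?_ ?_ ?_ ?_ ?_ hg
  · intro x y hx hy r
    exact v_comm (W.T_commute_s 3 0 (by omega) (by omega) (by omega)).symm r (ne_of_B hx.1.1 hy)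
  · intro x y hx hy r
    exact v_comm (W.lam_commute_T 2 3 (by omega) (by omega)) r (ne_of_B hx.1.1 hy)
  · intro i hi hik x y hx hy r
    have e1 := E_symm (SS_act A R hx hi hik)
    have e2 := hT i hi hik y hy
    have hne : ¬ W.E (W.s 0) (W.s 0 • x) (W.s 0 • y) := by
      rw [E_smul_comm (Commute.refl _)]
      exact nE_of_B A hx.1.1 hy
    rw [CC A (by omega) (by omega) e1 e2 (W.R_smul _ r) hne]
    exact v_comm (W.T_commute_s 3 0 (by omega) (by omega) (by omega)).symm r (ne_of_B hx.1.1 hy)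
  · intro x y _ _ _
    simp
  · intro g h _ hh h1 h2 x y hx hy r
    rw [mul_smul, mul_smul, h1 _ _ (SS_L A R hh x hx) ((B_smul_comm (W.L_commute_s0 (by omega) hh) y).2 hy)
      (W.R_smul h r)]
    exact h2 x y hx hy r
  · intro g hg h x y hx hy r
    have := h (g⁻¹ • x) (g⁻¹ • y) (SS_L A R (inv_mem hg) x hx)
      ((B_smul_comm (W.L_commute_s0 (by omega) (inv_mem hg)) y).2 hy) (W.R_smul _ r)
    rw [smul_inv_smul, smul_inv_smul] at this
    exact this.symm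

theorem f3 (A : W.Ax b) (hb : 0 < b) (R : RhoF W) (hT : W.STrB) (hQ3 : W.SQ b 3) (hAV : W.SAV b) {x : F}
    (hx : W.Nice x) (t : ℤ) : ¬ ∀ j, t ≤ j → j < t + ((k : ℤ) - 2) → ¬ sd W x j := by
  intro hall
  have hk := A.k5
  have hS : SS W x := ⟨hx, fun j => Cyc.allI (I := fun j => ¬ sd W x j) (by omega)
    (fun j => not_congr (sd_per A R x j)) hall j⟩
  obtain ⟨y, hy, r⟩ := exists_B A x
  have hc : 0 < ((orb W.L (x, y)).card : ℝ) := by
    exact_mod_cast Finset.card_pos.2 ⟨_, self_mem_orb _ _⟩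
  have h := hAV (orb W.L (x, y)) (fun g hg p hp => smul_mem_orb hg hp) ?_ 3 (by omega) (by omega)
  · have h2 : ∑ p ∈ orb W.L (x, y), W.v (W.T 3) p.1 p.2 = ((orb W.L (x, y)).card : ℝ) * W.v (W.T 3) x y := by
      rw [← nsmul_eq_mul]
      apply Finset.sum_eq_card_nsmul
      intro p hp
      obtain ⟨g, hg, rfl⟩ := mem_orb.1 hp
      exact SS_V3 A R hT hg x y hS hy r
    rw [h2] at h
    have hk' : (5 : ℝ) ≤ k := by exact_mod_cast hk
    have h3 : ((k : ℝ) - 2) * W.v (W.T 3) x y = b := by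
      have : ((orb W.L (x, y)).card : ℝ) * (((k : ℝ) - 2) * W.v (W.T 3) x y - b) = 0 := by
        push_cast at h; linarith
      rcases mul_eq_zero.1 this with h0 | h0
      · exact absurd h0 hc.ne'
      · linarith
    have hyQ : y ∈ W.Q b 3 := Or.inl hy
    by_cases hxQ : x ∈ W.Q b 3
    · have := hQ3.2.2.1 x y hxQ hyQ r (ne_of_B hx.1 hy)
      nlinarith
    · have := hQ3.2.2.2 x y hxQ hyQ r
      rw [this] at h3
      linarith
  · intro p hp
    obtain ⟨g, hg, rfl⟩ := mem_orb.1 hp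
    have c := W.L_commute_s0 (by omega) hg
    exact ⟨fun h => hx.1 ((B_smul_comm c x).1 h), (B_smul_comm c y).2 hy, W.R_smul g r⟩

/-! ### f4 -/

theorem up_act (A : W.Ax b) {x : F} (n : ℕ) (hn : n ≤ k - 4)
    (h : ∀ i, 3 ≤ i → i + 1 < k → W.E (W.s 0) (W.s i • x) (W.s 0 • x)) :
    W.E (W.s 0) (W.up 3 n • x) (W.s 0 ^ n • x) := by
  have hk := A.k5
  induction n with
  | zero => simpa [up] using E_refl _ _ _
  | succ n ih =>
    have ih' := ih (by omega)
    have hup : Commute (W.up 3 n) (W.s 0) := by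
      have : ∀ n, n ≤ k - 4 → Commute (W.up 3 n) (W.s 0) := by
        intro n
        induction n with
        | zero => intro _; exact Commute.one_left _
        | succ n ih => intro hn; exact (ih (by omega)).mul_left (W.commute_s 0 (3 + n) (by omega) (by omega)).symm
      exact this n (by omega)
    have h1 := h (3 + n) (by omega) (by omega)
    have h2 := (E_smul_comm hup _ _).2 h1
    have h3 : W.E (W.s 0) (W.up 3 n • W.s 0 • x) (W.s 0 ^ (n + 1) • x) := by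
      rw [← mul_smul, hup.eq, mul_smul, pow_succ', mul_smul]
      exact (E_smul_comm (Commute.refl _) _ _).2 ih'
    show W.E (W.s 0) ((W.up 3 n * W.s (3 + n)) • x) _
    rw [mul_smul]
    exact E_trans0 A h2 h3

theorem f4_zero (A : W.Ax b) (hb : 0 < b) (R : RhoF W) (hT : W.STrB) (hV : W.SV b) (hQ3 : W.SQ b 3)
    (hQ : W.SQ b (k - 1)) (hAV : W.SAV b) {x : F} (hx : W.Nice x)
    (hI : ∀ j : ℤ, 0 ≤ j → j ≤ (k : ℤ) - 2 - 2 → ¬ sd W x j) : ¬ zz W b x 0 ∧ ¬ zz W b x 1 := by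
  have hk := A.k5
  obtain ⟨y, hy, r⟩ := exists_B A x
  -- the last side
  have hlast : sd W x (-1) := by
    by_contra hn
    refine f3 A hb R hT hQ3 hAV hx 0 ?_
    intro j h0 hj
    by_cases h : j ≤ (k : ℤ) - 2 - 2
    · exact hI j h0 h
    · have : j = -1 + ((k : ℤ) - 2) := by omega
      rw [this, sd_per A R]
      exact hn
  have hrx : W.rho • x ∈ W.B (W.s 2) := by
    have : W.rho ^ (-(-1) : ℤ) • x ∈ W.B (W.s 2) := hlast
    simpa using this
  have crho : Commute W.rho (W.s 0) := W.L_commute_s0 (by omega) R.memL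
  have hry : W.rho • y ∈ W.B (W.s 0) := (B_smul_comm crho y).2 hy
  have hxy : x ≠ y := ne_of_B hx.1 hy
  have nE : ¬ W.E (W.s 0) x y := nE_of_B A hx.1 hy
  have h1 : W.v (W.T 4) (W.rho • x) (W.rho • y) = b := by
    rw [W.v_symm]
    exact hV 4 le_rfl (by omega) _ hry _ hrx (W.R_smul _ (W.R_symm r))
  -- action of s i, i >= 2
  have hact : ∀ i, 2 ≤ i → i + 1 < k → W.E (W.s 0) (W.s i • x) (W.s 0 • x) := by
    intro i hi hik
    obtain ⟨j, rfl⟩ : ∃ j, i = j + 2 := ⟨i - 2, by omega⟩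
    exact act_s A R hx (by omega) (hI j (by omega) (by omega))
  have hactB : ∀ i, 2 ≤ i → i + 1 < k → W.E (W.s 0) (W.s i • y) (W.s 0 • y) := by
    intro i hi hik
    exact E_symm (hT i hi hik y hy)
  have cT4 : Commute (W.s 0) (W.T 4) := (W.T_commute_s 4 0 (by omega) (by omega) (by omega)).symm
  have h2 : W.v (W.T 4) x y = b := by
    have e1 := W.v_conj (W.rho⁻¹ * W.T 4 * W.rho) W.rho x y r hxy
    have g1 : W.rho * (W.rho⁻¹ * W.T 4 * W.rho) * W.rho⁻¹ = W.T 4 := by group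
    rw [g1, h1, R.conjT4] at e1
    have e2 := W.v_conj ((W.up 3 (k - 4))⁻¹ * W.T 4 * W.up 3 (k - 4)) (W.up 3 (k - 4)) x y r hxy
    have g2 : W.up 3 (k - 4) * ((W.up 3 (k - 4))⁻¹ * W.T 4 * W.up 3 (k - 4)) * (W.up 3 (k - 4))⁻¹ = W.T 4 := by
      group
    rw [g2, ← e1] at e2
    have u1 := up_act A (x := x) (k - 4) le_rfl (fun i hi hik => hact i (by omega) hik)
    have u2 := up_act A (x := y) (k - 4) le_rfl (fun i hi hik => hactB i (by omega) hik)
    have c : Commute (W.s 0 ^ (k - 4)) (W.s 0) := (Commute.refl _).pow_left _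
    have nE' : ¬ W.E (W.s 0) (W.s 0 ^ (k - 4) • x) (W.s 0 ^ (k - 4) • y) := by
      rw [E_smul_comm c]; exact nE
    rw [CC A (by omega) (by omega) (E_symm u1) (E_symm u2) (W.R_smul _ r) nE', v_comm (cT4.pow_left _) r hxy] at e2
    exact e2
  have h3 : W.v (W.T 4) (W.rho⁻¹ • x) (W.rho⁻¹ • y) = b := by
    have e1 := W.v_conj (W.T 4) W.rho (W.rho⁻¹ • x) (W.rho⁻¹ • y) (W.R_smul _ r)
      (fun h => hxy (MulAction.injective _ h))
    rw [smul_inv_smul, smul_inv_smul, R.conjT4'] at e1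
    rw [← e1]
    have e2 := W.v_conj ((W.s 3 * W.s 2)⁻¹ * W.T 4 * (W.s 3 * W.s 2)) (W.s 3 * W.s 2) x y r hxy
    have g2 : (W.s 3 * W.s 2) * ((W.s 3 * W.s 2)⁻¹ * W.T 4 * (W.s 3 * W.s 2)) * (W.s 3 * W.s 2)⁻¹ = W.T 4 := by
      group
    rw [g2] at e2
    rw [← e2]
    have gen : ∀ z : F, (∀ i, 2 ≤ i → i + 1 < k → W.E (W.s 0) (W.s i • z) (W.s 0 • z)) →
        W.E (W.s 0) ((W.s 3 * W.s 2) • z) (W.s 0 ^ 2 • z) := by
      intro z hz
      have c3 : Commute (W.s 3) (W.s 0) := (W.commute_s 0 3 (by omega) (by omega)).symm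
      have a1 := (E_smul_comm c3 _ _).2 (hz 2 le_rfl (by omega))
      have a2 := (E_smul_comm (Commute.refl (W.s 0)) _ _).2 (hz 3 (by omega) (by omega))
      rw [mul_smul, pow_two, mul_smul]
      rw [← mul_smul (W.s 3) (W.s 0) z, c3.eq, mul_smul] at a1
      exact E_trans0 A a1 a2
    have u1 := gen x hact
    have u2 := gen y hactB
    have c : Commute (W.s 0 ^ 2) (W.s 0) := (Commute.refl _).pow_left _
    have nE' : ¬ W.E (W.s 0) (W.s 0 ^ 2 • x) (W.s 0 ^ 2 • y) := by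
      rw [E_smul_comm c]; exact nE
    rw [CC A (by omega) (by omega) (E_symm u1) (E_symm u2) (W.R_smul _ r) nE', v_comm (cT4.pow_left _) r hxy]
    exact h2
  have fin : ∀ x y : F, x ∉ W.B (W.s 0) → y ∈ W.B (W.s 0) → W.R x y → W.v (W.T 4) x y = b →
      x ∈ W.Q b (k - 1) := by
    intro x y hx hy r h
    by_contra hQx
    have hxy := ne_of_B hx hy
    have h0 := hQ.2.2.2 x y hQx (Or.inl hy) r
    have := V_pos_mono A (m := 4) (n := k - 1) (by omega) (by omega) (by omega) r hxy (by rw [h]; exact hb)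
    rw [h0] at this
    exact lt_irrefl _ this
  constructor
  · intro hz
    apply hz
    have := fin x y hx.1 hy r h2
    simpa using this
  · intro hz
    apply hz
    have cinv : Commute W.rho⁻¹ (W.s 0) := crho.inv_left
    have := fin (W.rho⁻¹ • x) (W.rho⁻¹ • y) (fun h => hx.1 ((B_smul_comm cinv x).1 h))
      ((B_smul_comm cinv y).2 hy) (W.R_smul _ r) h3
    simpa using this

theorem f4 (A : W.Ax b) (hb : 0 < b) (R : RhoF W) (hT : W.STrB) (hV : W.SV b) (hQ3 : W.SQ b 3)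
    (hQ : W.SQ b (k - 1)) (hAV : W.SAV b) {x : F} (hx : W.Nice x) (t : ℤ)
    (hI : ∀ j : ℤ, t ≤ j → j ≤ t + ((k : ℤ) - 2) - 2 → ¬ sd W x j) : ¬ zz W b x t ∧ ¬ zz W b x (t + 1) := by
  have hk := A.k5
  have hn : W.Nice (W.rho ^ (-t) • x) := nice_smul (by omega) hx (rho_mem R (-t))
  have h := f4_zero A hb R hT hV hQ3 hQ hAV hn ?_
  · rw [← zz_shift, ← zz_shift, add_zero] at h
    exact h
  · intro j h0 hj
    rw [← sd_shift]
    exact hI _ (by omega) (by omega)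

theorem cyc (A : W.Ax b) (hb : 0 < b) (R : RhoF W) (hT : W.STrB) (hV : W.SV b) (hQ3 : W.SQ b 3)
    (hQ : W.SQ b (k - 1)) (hAV : W.SAV b) {x : F} (hx : W.Nice x) :
    Cyc ((k : ℤ) - 2) (fun j => ¬ sd W x j) (fun j => zz W b x j) where
  hm := by have := A.k5; omega
  pI := fun j => not_congr (sd_per A R x j)
  pZ := fun j => zz_per A R x j
  f1 := fun t j hz h0 h1 => f1 A R hQ t j hz h0 h1
  f3 := fun t => f3 A hb R hT hQ3 hAV hx t
  f4 := fun t h => f4 A hb R hT hV hQ3 hQ hAV hx t h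

end H80

end WSys

end LN6
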