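import Pool.Agent.Helper91.LN6.Braid

/-!
LN6, leaf F, tools: class relations, largest classes, orbits of pairs.
-/

open scoped Classical
open Finset

namespace LN6

namespace WSys

namespace H80

variable {k : ℕ} {Γ F : Type} [Group Γ] [MulAction Γ F] {W : WSys k Γ F} {b : ℝ}

theorem E_refl (W : WSys k Γ F) (h : Γ) (x : F) : W.E h x x := Or.inl rfl

theorem E_R {h : Γ} {x y : F} (e : W.E h x y) : W.R x y := by
  rcases e with rfl | ⟨r, _⟩
  · exact W.R_refl _
  · exact r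

theorem E_symm {h : Γ} {x y : F} (e : W.E h x y) : W.E h y x := by
  rcases e with rfl | ⟨r, p⟩
  · exact Or.inl rfl
  · exact Or.inr ⟨W.R_symm r, by rw [W.v_symm]; exact p⟩

theorem v_T2 (W : WSys k Γ F) {x y : F} (r : W.R x y) (ne : x ≠ y) : W.v (W.T 2) x y = 2 * W.v (W.s 0) x y := by
  rw [W.T_two_mul, W.v_mul _ _ _ _ r ne rfl]
  ring

theorem E_trans0 [Fintype F] (A : W.Ax b) {x y z : F} (e : W.E (W.s 0) x y) (e' : W.E (W.s 0) y z) :
    W.E (W.s 0) x z := by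
  by_cases hxz : x = z
  · exact Or.inl hxz
  rcases e with rfl | ⟨r, p⟩
  · exact e'
  rcases e' with rfl | ⟨r', p'⟩
  · exact Or.inr ⟨r, p⟩
  have hk := A.k5
  by_cases hxy : x = y
  · subst hxy
    exact Or.inr ⟨r', p'⟩
  by_cases hyz : y = z
  · subst hyz
    exact Or.inr ⟨r, p⟩
  have rz := W.R_trans r r'
  have h := A.ultra 2 le_rfl (by omega) x y z r r' hxy hyz hxz
  rw [v_T2 W r hxy, v_T2 W r' hyz, v_T2 W rz hxz] at h
  refine Or.inr ⟨rz, ?_⟩
  rcases min_le_iff.1 h with h | h <;> linarith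

theorem E_smul (g : Γ) {h : Γ} {x y : F} (e : W.E h x y) : W.E (g * h * g⁻¹) (g • x) (g • y) := by
  rcases e with rfl | ⟨r, p⟩
  · exact Or.inl rfl
  · by_cases hxy : x = y
    · subst hxy; exact Or.inl rfl
    exact Or.inr ⟨W.R_smul g r, by rw [W.v_conj h g x y r hxy]; exact p⟩

theorem E_smul_iff (g h : Γ) (x y : F) : W.E (g * h * g⁻¹) (g • x) (g • y) ↔ W.E h x y := by
  constructor
  · intro e
    have := E_smul g⁻¹ e
    simpa [mul_assoc] using this
  · exact E_smul g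

theorem E_smul_comm {g h : Γ} (c : Commute g h) (x y : F) : W.E h (g • x) (g • y) ↔ W.E h x y := by
  have := E_smul_iff (W := W) g h x y
  have hc : g * h * g⁻¹ = h := by rw [c.eq]; group
  rwa [hc] at this

theorem E_trans_conj [Fintype F] (A : W.Ax b) (g : Γ) {x y z : F} (e : W.E (g * W.s 0 * g⁻¹) x y)
    (e' : W.E (g * W.s 0 * g⁻¹) y z) : W.E (g * W.s 0 * g⁻¹) x z := by
  have h1 := E_smul g⁻¹ e
  have h2 := E_smul g⁻¹ e'
  have hc : g⁻¹ * (g * W.s 0 * g⁻¹) * g⁻¹⁻¹ = W.s 0 := by group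
  rw [hc] at h1 h2
  have h3 := E_smul g (E_trans0 A h1 h2)
  simpa using h3

variable [Fintype F]

theorem mem_cl {h : Γ} {x y : F} : y ∈ W.cl h x ↔ W.E h x y := by simp [cl]

theorem cl_smul (g h : Γ) (x : F) : W.cl (g * h * g⁻¹) (g • x) = (W.cl h x).image fun y => g • y := by
  ext z
  simp only [mem_cl, mem_image]
  constructor
  · intro e
    refine ⟨g⁻¹ • z, ?_, by simp⟩
    rw [← E_smul_iff (W := W) g h]
    simpa using e
  · rintro ⟨y, e, rfl⟩
    exact E_smul g e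

theorem card_cl_smul (g h : Γ) (x : F) : (W.cl (g * h * g⁻¹) (g • x)).card = (W.cl h x).card := by
  rw [cl_smul, card_image_of_injective _ (MulAction.injective g)]

theorem B_smul_iff (g h : Γ) (x : F) : g • x ∈ W.B (g * h * g⁻¹) ↔ x ∈ W.B h := by
  show _ = _ ↔ _ = _
  rw [card_cl_smul]

theorem B_smul_comm {g h : Γ} (c : Commute g h) (x : F) : g • x ∈ W.B h ↔ x ∈ W.B h := by
  have := B_smul_iff (W := W) g h x
  have hc : g * h * g⁻¹ = h := by rw [c.eq]; group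
  rwa [hc] at this

theorem cl_eq_conj (A : W.Ax b) (g : Γ) {x y : F} (e : W.E (g * W.s 0 * g⁻¹) x y) :
    W.cl (g * W.s 0 * g⁻¹) x = W.cl (g * W.s 0 * g⁻¹) y := by
  ext z
  simp only [mem_cl]
  exact ⟨fun h => E_trans_conj A g (E_symm e) h, fun h => E_trans_conj A g e h⟩

theorem cl_eq (A : W.Ax b) {x y : F} (e : W.E (W.s 0) x y) : W.cl (W.s 0) x = W.cl (W.s 0) y := by
  have := cl_eq_conj (W := W) A 1 (x := x) (y := y)
  simp only [one_mul, inv_one, mul_one] at this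
  exact this e

theorem B_congr_conj (A : W.Ax b) (g : Γ) {x y : F} (e : W.E (g * W.s 0 * g⁻¹) x y) :
    x ∈ W.B (g * W.s 0 * g⁻¹) ↔ y ∈ W.B (g * W.s 0 * g⁻¹) := by
  show _ = _ ↔ _ = _
  rw [cl_eq_conj A g e]

theorem B_congr (A : W.Ax b) {x y : F} (e : W.E (W.s 0) x y) : x ∈ W.B (W.s 0) ↔ y ∈ W.B (W.s 0) := by
  show _ = _ ↔ _ = _
  rw [cl_eq A e]

/-- the largest classes of `s 0` meet every block -/
theorem exists_B (A : W.Ax b) (x : F) : ∃ y ∈ W.B (W.s 0), W.R x y := by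
  obtain ⟨z, -, hz⟩ := exists_mem_eq_sup (univ : Finset F) ⟨x, mem_univ x⟩ (fun x => (W.cl (W.s 0) x).card)
  have hzB : z ∈ W.B (W.s 0) := hz.symm
  obtain ⟨j, hj⟩ := A.blk z x
  refine ⟨W.s 0 ^ j • z, ?_, W.R_symm hj⟩
  exact (B_smul_comm ((Commute.refl (W.s 0)).pow_left j) z).2 hzB

/-- orbit of a pair under a subgroup -/
noncomputable def orb (K : Subgroup Γ) (p : F × F) : Finset (F × F) := univ.filter fun q => ∃ g ∈ K, g • p = q

theorem self_mem_orb (K : Subgroup Γ) (p : F × F) : p ∈ orb K p := by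
  simp only [orb, mem_filter, mem_univ, true_and]
  exact ⟨1, one_mem _, by simp⟩

theorem smul_mem_orb {K : Subgroup Γ} {p q : F × F} {g : Γ} (hg : g ∈ K) (hq : q ∈ orb K p) : g • q ∈ orb K p := by
  simp only [orb, mem_filter, mem_univ, true_and] at hq ⊢
  obtain ⟨h, hh, rfl⟩ := hq
  exact ⟨g * h, mul_mem hg hh, mul_smul _ _ _⟩

theorem mem_orb {K : Subgroup Γ} {p q : F × F} : q ∈ orb K p ↔ ∃ g ∈ K, g • p = q := by simp [orb]

/-- class constancy: `V m` is constant on pairs of different `E (s 0)`-classes -/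
theorem CC1 (A : W.Ax b) {m : ℕ} (hm : 3 ≤ m) (hmk : m < k) {x x' y : F} (e : W.E (W.s 0) x x')
    (r : W.R x y) (ne : ¬ W.E (W.s 0) x y) : W.v (W.T m) x y ≤ W.v (W.T m) x' y := by
  by_cases hxx : x = x'
  · rw [hxx]
  have hxy : x ≠ y := fun h => ne (Or.inl h)
  have hx'y : x' ≠ y := by
    rintro rfl
    exact ne e
  have rx : W.R x x' := E_R e
  have hpos : 0 < W.v (W.s 0) x x' := by
    rcases e with h | ⟨_, h⟩
    · exact absurd h hxx
    · exact h
  have h0 : W.v (W.s 0) x y ≤ 0 := by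
    by_contra hc
    exact ne (Or.inr ⟨r, by push Not at hc; exact hc⟩)
  have h1 := A.nest m hm hmk x x' y rx r hxx hxy hx'y
  have h2 : W.v (W.T m) x y ≤ W.v (W.T m) x x' := by
    by_contra hc
    push Not at hc
    nlinarith
  have h3 := A.ultra m (by omega) hmk x' x y (W.R_symm rx) r (Ne.symm hxx) hxy hx'y
  rw [W.v_symm _ x' x] at h3
  rcases min_le_iff.1 h3 with h | h <;> linarith

theorem CC1' (A : W.Ax b) {m : ℕ} (hm : 3 ≤ m) (hmk : m < k) {x x' y : F} (e : W.E (W.s 0) x x')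
    (r : W.R x y) (ne : ¬ W.E (W.s 0) x y) : W.v (W.T m) x' y = W.v (W.T m) x y := by
  apply le_antisymm
  · refine CC1 A hm hmk (E_symm e) (W.R_trans (W.R_symm (E_R e)) r) ?_
    intro h
    exact ne (E_trans0 A e h)
  · exact CC1 A hm hmk e r ne

theorem CC (A : W.Ax b) {m : ℕ} (hm : 3 ≤ m) (hmk : m < k) {x x' y y' : F} (e : W.E (W.s 0) x x')
    (e' : W.E (W.s 0) y y') (r : W.R x y) (ne : ¬ W.E (W.s 0) x y) :
    W.v (W.T m) x' y' = W.v (W.T m) x y := by
  rw [← CC1' A hm hmk e r ne, W.v_symm _ x' y', W.v_symm _ x' y]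
  refine CC1' A hm hmk e' (W.R_symm (W.R_trans (W.R_symm (E_R e)) r)) ?_
  intro h
  exact ne (E_trans0 A e (E_symm h))

end H80

end WSys

end LN6
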